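import Pool.Agent.V5helper19.QC.Stm

set_option autoImplicit false

open Finset

namespace V5helper19.QC

theorem geo_le (α : ℝ) (hα : 0 < α) (n : ℕ) :
    ∑ j ∈ Icc 2 n, Real.exp (-((j : ℝ) * α / 2)) ≤ 2 / α := by
  have hr0 : 0 < Real.exp (-(α / 2)) := Real.exp_pos _
  have hr1 : Real.exp (-(α / 2)) < 1 := by
    rw [Real.exp_lt_one_iff]; linarith
  have hkey : ∀ m : ℕ, (∑ j ∈ range m, Real.exp (-(α / 2)) ^ j) * (1 - Real.exp (-(α / 2))) ≤ 1 := by
    intro m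
    have := geom_sum_mul_neg (Real.exp (-(α / 2))) m
    rw [this]
    have : 0 ≤ Real.exp (-(α / 2)) ^ m := by positivity
    linarith
  have h1 : ∑ j ∈ Icc 2 n, Real.exp (-((j : ℝ) * α / 2)) ≤
      Real.exp (-(α / 2)) * ∑ j ∈ range (n + 1), Real.exp (-(α / 2)) ^ j := by
    rw [mul_sum]
    have h2 : ∑ j ∈ Icc 2 n, Real.exp (-((j : ℝ) * α / 2)) ≤
        ∑ j ∈ Icc 2 n, Real.exp (-(α / 2)) * Real.exp (-(α / 2)) ^ (j - 1) := by
      refine sum_le_sum fun j hj => ?_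
      rw [mem_Icc] at hj
      rw [← pow_succ', show j - 1 + 1 = j by omega, ← Real.exp_nat_mul]
      apply le_of_eq
      congr 1
      ring
    refine h2.trans ?_
    have h3 : ∑ j ∈ Icc 2 n, Real.exp (-(α / 2)) * Real.exp (-(α / 2)) ^ (j - 1) =
        ∑ j ∈ (Icc 2 n).image (fun j => j - 1), Real.exp (-(α / 2)) * Real.exp (-(α / 2)) ^ j := by
      rw [sum_image]
      intro a ha b hb hab
      simp only [coe_Icc, Set.mem_Icc] at ha hb
      simp only at hab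
      omega
    rw [h3]
    refine sum_le_sum_of_subset_of_nonneg ?_ (fun _ _ _ => by positivity)
    intro a ha
    simp only [mem_image, mem_Icc, mem_range] at ha ⊢
    obtain ⟨b, hb, rfl⟩ := ha
    omega
  refine h1.trans ?_
  have h4 : Real.exp (-(α / 2)) * (1 + α / 2) ≤ 1 := by
    have h5 : 1 + α / 2 ≤ Real.exp (α / 2) := by
      have := Real.add_one_le_exp (α / 2); linarith
    calc Real.exp (-(α / 2)) * (1 + α / 2) ≤ Real.exp (-(α / 2)) * Real.exp (α / 2) :=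
          mul_le_mul_of_nonneg_left h5 hr0.le
      _ = 1 := by rw [← Real.exp_add]; simp
  have hS0 : 0 ≤ ∑ j ∈ range (n + 1), Real.exp (-(α / 2)) ^ j :=
    sum_nonneg fun _ _ => by positivity
  have h6 := hkey (n + 1)
  rw [le_div_iff₀ hα]
  -- r S alpha <= 2 : r (1 + a/2) <= 1 -> r a/2 <= 1 - r ; S (1 - r) <= 1
  have h7 : Real.exp (-(α / 2)) * (α / 2) ≤ 1 - Real.exp (-(α / 2)) := by linarith
  nlinarith [mul_le_mul_of_nonneg_left h7 hS0]

theorem LD3_eq (n : ℕ) (z : ℂ) (hz : z ≠ 0) :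
    LD3 n z = (z ^ 3)⁻¹ * ∑ j ∈ Icc 2 n, (((((n + j : ℕ) : ℂ) * z) ^ 3 * e2 (((n + j : ℕ) : ℂ) * z)) -
      (((j : ℂ) * z) ^ 3 * e2 ((j : ℂ) * z))) := by
  unfold LD3
  rw [mul_sum]
  refine sum_congr rfl fun j _ => ?_
  field_simp

theorem t_D3 (hA : S_H3A) (hB : S_H3B) : S_D3 := by
  obtain ⟨CA, hCA, hA⟩ := hA
  obtain ⟨CB, hCB, hB⟩ := hB
  refine ⟨16 * CB + 4 * CA, by positivity, ?_⟩
  intro n α θ hn hα hθ
  have hn0 : (0 : ℝ) < n := by
    have : 0 < n := by omega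
    exact_mod_cast this
  have hre : (zz α θ).re = α := by simp [zz]
  have him : (zz α θ).im = θ := by simp [zz]
  have hz : zz α θ ≠ 0 := by
    intro h
    rw [h] at hre
    simp at hre
    linarith
  have hzn : 0 < ‖zz α θ‖ := norm_pos_iff.mpr hz
  have hαz : α ≤ ‖zz α θ‖ := by
    have := Complex.re_le_norm (zz α θ)
    rwa [hre] at this
  rw [LD3_eq n _ hz, norm_mul, norm_inv, norm_pow]
  rw [inv_mul_le_iff₀ (by positivity)]
  rcases le_or_gt (α * n) 1 with hc | hc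
  · have hNN : NN n α = n := by
      unfold NN
      apply min_eq_left
      rw [le_div_iff₀ hα]
      linarith
    rw [hNN] at hθ ⊢
    have hznle : ‖zz α θ‖ ≤ 5 / 4 / n := by
      have h1 : ‖zz α θ‖ ≤ |α| + |θ| := by
        have := Complex.norm_le_abs_re_add_abs_im (zz α θ)
        rwa [hre, him] at this
      have h2 : |α| ≤ 1 / n := by
        rw [abs_of_pos hα, le_div_iff₀ hn0]
        exact hc
      have h3 : (5 / 4 / n : ℝ) = 1 / n + 1 / 4 / n := by ring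
      rw [h3]; linarith
    have hm : ∀ m : ℕ, 0 < m → m ≤ 2 * n →
        ‖((m : ℂ) * zz α θ) ^ 3 * e2 ((m : ℂ) * zz α θ) - 2‖ ≤ CB * (8 * n ^ 3) * ‖zz α θ‖ ^ 3 := by
      intro m hm0 hm2
      have hm0' : (0 : ℝ) < m := by exact_mod_cast hm0
      have hm2' : (m : ℝ) ≤ 2 * n := by exact_mod_cast hm2
      have hnm : ‖(m : ℂ) * zz α θ‖ = m * ‖zz α θ‖ := by
        rw [norm_mul, Complex.norm_natCast]
      have hne : (m : ℂ) * zz α θ ≠ 0 := mul_ne_zero (by exact_mod_cast hm0.ne') hz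
      have hle3 : ‖(m : ℂ) * zz α θ‖ ≤ 3 := by
        rw [hnm]
        calc (m : ℝ) * ‖zz α θ‖ ≤ 2 * n * (5 / 4 / n) := by gcongr
          _ = 5 / 2 := by field_simp; norm_num
          _ ≤ 3 := by norm_num
      refine (hB _ hne hle3).trans ?_
      rw [hnm, mul_pow]
      have h4 : (m : ℝ) ^ 3 ≤ 8 * (n : ℝ) ^ 3 := by
        calc (m : ℝ) ^ 3 ≤ (2 * n) ^ 3 := by gcongr
          _ = 8 * (n : ℝ) ^ 3 := by ring
      calc CB * ((m : ℝ) ^ 3 * ‖zz α θ‖ ^ 3) ≤ CB * (8 * (n : ℝ) ^ 3 * ‖zz α θ‖ ^ 3) := by gcongr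
        _ = _ := by ring
    have hsum : ‖∑ j ∈ Icc 2 n, (((((n + j : ℕ) : ℂ) * zz α θ) ^ 3 * e2 (((n + j : ℕ) : ℂ) * zz α θ)) -
      (((j : ℂ) * zz α θ) ^ 3 * e2 ((j : ℂ) * zz α θ)))‖ ≤
        ∑ j ∈ Icc 2 n, (16 * CB * n ^ 3 * ‖zz α θ‖ ^ 3) := by
      refine (norm_sum_le _ _).trans (sum_le_sum fun j hj => ?_)
      rw [mem_Icc] at hj
      have ha := hm (n + j) (by omega) (by omega)
      have hb := hm j (by omega) (by omega)
      have : ((((n + j : ℕ) : ℂ) * zz α θ) ^ 3 * e2 (((n + j : ℕ) : ℂ) * zz α θ)) -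
          (((j : ℂ) * zz α θ) ^ 3 * e2 ((j : ℂ) * zz α θ)) =
          ((((n + j : ℕ) : ℂ) * zz α θ) ^ 3 * e2 (((n + j : ℕ) : ℂ) * zz α θ) - 2) -
          (((j : ℂ) * zz α θ) ^ 3 * e2 ((j : ℂ) * zz α θ) - 2) := by ring
      rw [this]
      refine (norm_sub_le _ _).trans ?_
      linarith
    refine hsum.trans ?_
    rw [sum_const, nsmul_eq_mul, Nat.card_Icc]
    have hcard : ((n + 1 - 2 : ℕ) : ℝ) ≤ n := by
      have : n + 1 - 2 ≤ n := by omega
      exact_mod_cast this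
    have hz3 : 0 ≤ ‖zz α θ‖ ^ 3 := by positivity
    calc ((n + 1 - 2 : ℕ) : ℝ) * (16 * CB * n ^ 3 * ‖zz α θ‖ ^ 3)
        ≤ n * (16 * CB * n ^ 3 * ‖zz α θ‖ ^ 3) := by gcongr
      _ = ‖zz α θ‖ ^ 3 * (16 * CB * (n : ℝ) ^ 4) := by ring
      _ ≤ ‖zz α θ‖ ^ 3 * ((16 * CB + 4 * CA) * (n : ℝ) ^ 4) := by
        gcongr
        linarith
  · have hNN : NN n α = 1 / α := by
      unfold NN
      apply min_eq_right
      rw [div_le_iff₀ hα]
      linarith
    rw [hNN] at hθ ⊢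
    have hθ' : |θ| ≤ α / 4 := by
      have : (1 / 4 : ℝ) / (1 / α) = α / 4 := by field_simp
      rwa [this] at hθ
    have hm : ∀ m : ℕ, 0 < m →
        ‖((m : ℂ) * zz α θ) ^ 3 * e2 ((m : ℂ) * zz α θ)‖ ≤ CA * Real.exp (-((m : ℝ) * α / 2)) := by
      intro m hm0
      have hm0' : (0 : ℝ) < m := by exact_mod_cast hm0
      have hre' : ((m : ℂ) * zz α θ).re = m * α := by
        simp [zz]
      have him' : ((m : ℂ) * zz α θ).im = m * θ := by
        simp [zz]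
      have := hA ((m : ℂ) * zz α θ) (by rw [hre']; positivity) (by
        rw [hre', him', abs_mul, abs_of_pos hm0']
        gcongr
        linarith)
      rwa [hre'] at this
    have hsum : ‖∑ j ∈ Icc 2 n, (((((n + j : ℕ) : ℂ) * zz α θ) ^ 3 * e2 (((n + j : ℕ) : ℂ) * zz α θ)) -
      (((j : ℂ) * zz α θ) ^ 3 * e2 ((j : ℂ) * zz α θ)))‖ ≤
        ∑ j ∈ Icc 2 n, (2 * CA * Real.exp (-((j : ℝ) * α / 2))) := by
      refine (norm_sum_le _ _).trans (sum_le_sum fun j hj => ?_)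
      rw [mem_Icc] at hj
      refine (norm_sub_le _ _).trans ?_
      have ha := hm (n + j) (by omega)
      have hb := hm j (by omega)
      have hc' : Real.exp (-(((n + j : ℕ) : ℝ) * α / 2)) ≤ Real.exp (-((j : ℝ) * α / 2)) := by
        rw [Real.exp_le_exp]
        push_cast
        nlinarith [mul_pos hn0 hα]
      have := mul_le_mul_of_nonneg_left hc' hCA.le
      linarith
    refine hsum.trans ?_
    rw [← mul_sum]
    have hg := geo_le α hα n
    have hα3 : α ^ 3 ≤ ‖zz α θ‖ ^ 3 := by gcongr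
    calc 2 * CA * ∑ j ∈ Icc 2 n, Real.exp (-((j : ℝ) * α / 2)) ≤ 2 * CA * (2 / α) := by gcongr
      _ = α ^ 3 * (4 * CA * (1 / α) ^ 4) := by field_simp; ring
      _ ≤ ‖zz α θ‖ ^ 3 * ((16 * CB + 4 * CA) * (1 / α) ^ 4) := by
        gcongr
        linarith

end V5helper19.QC
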