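import Pool.Agent.V5helper19.QC.An
import Pool.Agent.V5helper6.QC.AN1
import Pool.Agent.V5helper37.QC.AN2
import Pool.Agent.V5helper81.QC.CO
import Pool.Agent.V5helper12.QC.D2
import Pool.Agent.V5helper36.QC.DER
import Pool.Agent.V5helper58.QC.DK
import Pool.Agent.V5helper58.QC.PR
import Pool.Agent.V5helper65.QC.END
import Pool.Agent.V5helper7.QC.H2
import Pool.Agent.V5helper3.QC.H3A
import Pool.Agent.V5helper72.QC.H3B
import Pool.Agent.V5helper91.QC.MAIN
import Pool.Agent.V5helper5.QC.MEAN1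
import Pool.Agent.V5helper81.QC.MEAN2
import Pool.Agent.V5helper84.QC.MO
import Pool.Agent.V5helper43.QC.POLY
import Pool.Agent.V5helper76.QC.PSI
import Pool.Agent.V5helper69.QC.QBT
import Pool.Agent.V5helper1.QC.TA
import Pool.Agent.V5helper19.QC.D3

open V5helper19.QC

namespace V5helper19.QC

theorem all_good : ∃ t : ℤ, Pool.Agent.Results.MP_532027_co.LeastTNot75.Good t :=
  V5helper65.QC.t_END
    (V5helper91.QC.t_MAIN
      (t_AN Pool.Agent.V5helper6.QC.t_AN1 Pool.Agent.V5helper37.QC.t_AN2)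
      V5helper36.QC.t_DER
      (V5helper76.QC.t_PSI V5helper36.QC.t_DER)
      (t_D3 V5helper3.QC.t_H3A V5helper72.QC.t_H3B)
      (V5helper12.QC.t_D2 V5helper7.QC.t_H2)
      V5helper5.QC.t_MEAN1
      V5helper81.QC.t_MEAN2
      (V5helper1.QC.t_TA V5helper69.QC.t_QBT V5helper81.QC.t_CO
        (V5helper58.QC.t_PR V5helper58.QC.t_DK)
        (V5helper84.QC.t_MO V5helper69.QC.t_QBT)))
    V5helper81.QC.t_FOUR
    V5helper43.QC.t_POLY

end V5helper19.QC
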