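import Pool.Agent.V5helper19.QC.Stm

set_option autoImplicit false

namespace V5helper19.QC

theorem t_AN (h1 : S_AN1) (h2 : S_AN2) : S_AN := by
  intro c C K δ c' C' hc hC hK hδ hKδ hc' hC'
  obtain ⟨N1, hN1, H1⟩ := h1 c C K δ c' C' hc hC hK hδ hKδ hc' hC'
  obtain ⟨N2, hN2, H2⟩ := h2 c C K δ c' C' hc hC hK hδ hKδ hc' hC'
  refine ⟨max N1 N2, lt_max_of_lt_left hN1, ?_⟩
  intro N σ ψ hN h3 h4 h5 h6 h7
  exact ⟨H1 N σ ψ (le_trans (le_max_left _ _) hN) h3 h4 h5 h6 h7,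
    H2 N σ ψ (le_trans (le_max_right _ _) hN) h3 h4 h5 h6 h7⟩

end V5helper19.QC
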