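import Mathlib

/-!
# Project QC: the q-Catalan coefficients are log-concave away from the two ends (MP_532027_co, Q1)

C_n(q) = prod_{j=2}^n (1 - q^(n+j)) / (1 - q^j) = sum_k a_k q^k. For alpha > 0 put
psi(th) = C_n(e^(-alpha - i th)) / C_n(e^(-alpha)) e^(i k th); then
int psi(th) e^(i s th) = 2 pi a_(k+s) e^(-alpha (k+s)) / C_n(e^(-alpha)). So with p_l = a_l e^(-alpha l):
int psi (1 - cos) >= 0 says 2 p_k >= p_(k-1) + p_(k+1), and p_k^2 >= p_(k-1) p_(k+1) follows from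
p_(k-1), p_(k+1) >= 0 and the inequality of the means. alpha is the saddle point, N = min(n, 1/alpha).
-/

set_option autoImplicit false
open Finset

namespace V5helper19.QC

/-- 1/(e^x - 1) -/
noncomputable def bb (x : ℂ) : ℂ := 1 / (Complex.exp x - 1)
/-- minus the derivative of bb -/
noncomputable def e1 (x : ℂ) : ℂ := Complex.exp x / (Complex.exp x - 1) ^ 2
/-- the second derivative of bb -/
noncomputable def e2 (x : ℂ) : ℂ := Complex.exp x * (Complex.exp x + 1) / (Complex.exp x - 1) ^ 3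

/-- C_n(w) -/
noncomputable def GC (n : ℕ) (w : ℂ) : ℂ := ∏ j ∈ Icc 2 n, (1 - w ^ (n + j)) / (1 - w ^ j)
/-- C_n(e^(-z)) -/
noncomputable def GZ (n : ℕ) (z : ℂ) : ℂ := GC n (Complex.exp (-z))
/-- the logarithmic derivative of GZ -/
noncomputable def LD (n : ℕ) (z : ℂ) : ℂ :=
  ∑ j ∈ Icc 2 n, (((n + j : ℕ) : ℂ) * bb (((n + j : ℕ) : ℂ) * z) - (j : ℂ) * bb ((j : ℂ) * z))
/-- its derivative -/
noncomputable def LD2 (n : ℕ) (z : ℂ) : ℂ :=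
  ∑ j ∈ Icc 2 n, ((j : ℂ) ^ 2 * e1 ((j : ℂ) * z) -
    ((n + j : ℕ) : ℂ) ^ 2 * e1 (((n + j : ℕ) : ℂ) * z))
/-- its second derivative -/
noncomputable def LD3 (n : ℕ) (z : ℂ) : ℂ :=
  ∑ j ∈ Icc 2 n, (((n + j : ℕ) : ℂ) ^ 3 * e2 (((n + j : ℕ) : ℂ) * z) -
    (j : ℂ) ^ 3 * e2 ((j : ℂ) * z))

/-- min(n, 1/alpha) -/
noncomputable def NN (n : ℕ) (α : ℝ) : ℝ := min (n : ℝ) (1 / α)

/-- the point alpha + i th -/
noncomputable def zz (α θ : ℝ) : ℂ := (α : ℂ) + (θ : ℂ) * Complex.I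

/-- the q-binomial coefficient [N choose r] at w -/
noncomputable def QB {K : Type} [Field K] (N r : ℕ) (w : K) : K :=
  ∏ i ∈ range r, (1 - w ^ (N - i)) / (1 - w ^ (i + 1))

/-- x^2 e^x / (e^x - 1)^2 -/
noncomputable def hh (x : ℝ) : ℝ := x ^ 2 * Real.exp x / (Real.exp x - 1) ^ 2

/-- JOB AN1 (150-250 lines, real analysis only). Substitute u = N^(3/2) th. Let T be large.
On |u| <= T: norm rho <= T N^(-3/2) + K T^3 N^(-1/2) is tiny, so Re psi >= (1/2) e^(-sigma th^2/2)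
>= (1/2) e^(-C u^2/2), norm psi <= 2. On T N^(-3/2) <= |th| <= delta/N: K N^4 |th|^3 <= K delta N^3
th^2 <= (c/8) N^3 th^2 <= sigma th^2/8, so norm psi <= e^(|th|) e^(-3 sigma th^2/8) <= e^pi
e^(-3 c u^2/8). First integral: 1 - cos th lies between th^2/4 (|th| <= 1) and th^2/2; the part
|u| <= 1 gives at least c_1 N^(-9/2), the part |u| > T at most eps(T) N^(-9/2) with eps(T) -> 0
(choose T with eps(T) <= c_1/4), the part 1 <= |u| <= T is >= 0, the part |th| >= delta/N at most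
4 pi C' N^2 e^(-c' N) <= (c_1/4) N^(-9/2). The other two integrals: Re (psi e^(+-i th)) >=
Re psi - |th| norm psi; main part c_1 N^(-3/2) in the same way. (A variant: avoid T N^(-3/2) by a
dominated convergence argument for the substituted integrals along a hypothetical sequence N -> oo;
but sigma/N^3 only stays in [c, C], so the direct estimate is simpler.) -/
def S_AN1 : Prop := ∀ c C K δ c' C' : ℝ, 0 < c → 0 < C → 0 < K → 0 < δ → K * δ ≤ c / 8 →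
  0 < c' → 0 < C' → ∃ N0 : ℝ, 0 < N0 ∧ ∀ (N σ : ℝ) (ψ : ℝ → ℂ), N0 ≤ N → c * N ^ 3 ≤ σ →
    σ ≤ C * N ^ 3 → Continuous ψ →
    (∀ θ : ℝ, |θ| ≤ δ / N → ∃ ρ : ℂ, ψ θ = Complex.exp (-(σ : ℂ) * (θ : ℂ) ^ 2 / 2 + ρ) ∧
      ‖ρ‖ ≤ |θ| + K * N ^ 4 * |θ| ^ 3) →
    (∀ θ : ℝ, δ / N ≤ |θ| → |θ| ≤ Real.pi → ‖ψ θ‖ ≤ C' * N ^ 2 * Real.exp (-(c' * N))) →
    0 < (∫ θ in (-Real.pi)..Real.pi, ψ θ * (1 - Complex.cos (θ : ℂ))).re

/-- JOB AN2 (150 lines): the other two integrals, see the text of AN1. -/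
def S_AN2 : Prop := ∀ c C K δ c' C' : ℝ, 0 < c → 0 < C → 0 < K → 0 < δ → K * δ ≤ c / 8 →
  0 < c' → 0 < C' → ∃ N0 : ℝ, 0 < N0 ∧ ∀ (N σ : ℝ) (ψ : ℝ → ℂ), N0 ≤ N → c * N ^ 3 ≤ σ →
    σ ≤ C * N ^ 3 → Continuous ψ →
    (∀ θ : ℝ, |θ| ≤ δ / N → ∃ ρ : ℂ, ψ θ = Complex.exp (-(σ : ℂ) * (θ : ℂ) ^ 2 / 2 + ρ) ∧
      ‖ρ‖ ≤ |θ| + K * N ^ 4 * |θ| ^ 3) →
    (∀ θ : ℝ, δ / N ≤ |θ| → |θ| ≤ Real.pi → ‖ψ θ‖ ≤ C' * N ^ 2 * Real.exp (-(c' * N))) →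
    0 < (∫ θ in (-Real.pi)..Real.pi, ψ θ * Complex.exp ((θ : ℂ) * Complex.I)).re ∧
    0 < (∫ θ in (-Real.pi)..Real.pi, ψ θ * Complex.exp (-((θ : ℂ) * Complex.I))).re

/-- both (follows from AN1 and AN2) -/
def S_AN : Prop := ∀ c C K δ c' C' : ℝ, 0 < c → 0 < C → 0 < K → 0 < δ → K * δ ≤ c / 8 →
  0 < c' → 0 < C' → ∃ N0 : ℝ, 0 < N0 ∧ ∀ (N σ : ℝ) (ψ : ℝ → ℂ), N0 ≤ N → c * N ^ 3 ≤ σ →
    σ ≤ C * N ^ 3 → Continuous ψ →
    (∀ θ : ℝ, |θ| ≤ δ / N → ∃ ρ : ℂ, ψ θ = Complex.exp (-(σ : ℂ) * (θ : ℂ) ^ 2 / 2 + ρ) ∧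
      ‖ρ‖ ≤ |θ| + K * N ^ 4 * |θ| ^ 3) →
    (∀ θ : ℝ, δ / N ≤ |θ| → |θ| ≤ Real.pi → ‖ψ θ‖ ≤ C' * N ^ 2 * Real.exp (-(c' * N))) →
    0 < (∫ θ in (-Real.pi)..Real.pi, ψ θ * (1 - Complex.cos (θ : ℂ))).re ∧
    0 < (∫ θ in (-Real.pi)..Real.pi, ψ θ * Complex.exp ((θ : ℂ) * Complex.I)).re ∧
    0 < (∫ θ in (-Real.pi)..Real.pi, ψ θ * Complex.exp (-((θ : ℂ) * Complex.I))).re

/-- JOB DER (80 lines): derivatives. bb' = - e1, e1' = - e2 at points with exp x <> 1 (for 0 < Re x: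
norm (exp x) > 1). The derivative of w -> 1 - exp(-(m z)) is m exp(-(m z)), and
m exp(-(m z))/(1 - exp(-(m z))) = m bb(m z). So for 0 < Re z: GZ' = GZ LD, LD' = LD2, LD2' = LD3, and
GZ z <> 0 (norm (exp (-z)) < 1). -/
def S_DER : Prop := ∀ (n : ℕ) (z : ℂ), 0 < z.re →
  GZ n z ≠ 0 ∧ HasDerivAt (GZ n) (GZ n z * LD n z) z ∧ HasDerivAt (LD n) (LD2 n z) z ∧
  HasDerivAt (LD2 n) (LD3 n z) z

/-- JOB PSI (120 lines, from DER). Put F(th) = i (l + k) th + int_0^th i (LD(alpha + i s) -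
LD(alpha) - i s sigma) ds =: rho(th). Then psi(th) exp(sigma th^2/2 - rho(th)) has derivative zero
(psi' = i (LD(alpha + i th) + k) psi), so it is constant = 1. By the mean value inequality twice:
norm (LD2(alpha + i s) - sigma) <= K |s|, norm (LD(alpha + i s) - LD(alpha) - i s sigma) <= K s^2, so
norm rho <= |th| + K |th|^3. -/
def S_PSI : Prop := ∀ (n : ℕ) (α r K k σ l : ℝ), 0 < α → 0 ≤ r → 0 ≤ K →
  LD n (α : ℂ) = (l : ℂ) → |l + k| ≤ 1 → LD2 n (α : ℂ) = (σ : ℂ) →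
  (∀ s : ℝ, |s| ≤ r → ‖LD3 n (zz α s)‖ ≤ K) → ∀ θ : ℝ, |θ| ≤ r → ∃ ρ : ℂ,
    GZ n (zz α θ) / GZ n (α : ℂ) * Complex.exp ((k : ℂ) * (θ : ℂ) * Complex.I) =
      Complex.exp (-(σ : ℂ) * (θ : ℂ) ^ 2 / 2 + ρ) ∧ ‖ρ‖ ≤ |θ| + K * |θ| ^ 3

/-- JOB H3A (100 lines). On the sector |Im x| <= Re x: for Re x >= 1, norm (exp x - 1) >=
e^(Re x) - 1 >= e^(Re x)/2 and norm x <= 2 Re x, so the left side is at most
8 (Re x)^3 e^(Re x)(e^(Re x) + 1) 8 e^(-3 Re x) <= C e^(-(Re x)/2). For Re x <= 1: norm x <= 2 and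
norm (exp x - 1) >= c norm x on the closed disc of radius 2 (or 3): x -> (exp x - 1)/x (dslope) is
continuous without zeros there, since exp x = 1 forces x in 2 pi i Z. -/
def S_H3A : Prop := ∃ C : ℝ, 0 < C ∧ ∀ x : ℂ, 0 < x.re → |x.im| ≤ x.re →
  ‖x ^ 3 * e2 x‖ ≤ C * Real.exp (-(x.re / 2))

/-- JOB H3B (120 lines). x^3 e2 x - 2 = (x^3 e^x (e^x + 1) - 2 (e^x - 1)^3)/(e^x - 1)^3. The
denominator is at least (c norm x)^3 for norm x <= 3 (see H3A). The numerator is O(norm x ^ 6): all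
Taylor coefficients up to x^5 vanish: x^3 (2 + 3 x + (5/2) x^2 + O(x^3)) - 2 (x + x^2/2 + x^3/6 +
O(x^4))^3, where (x + x^2/2 + x^3/6)^3 = x^3 + (3/2) x^4 + (5/4) x^5 + O(x^6). For norm x <= 3 write
e^x = 1 + x + x^2/2 + x^3/6 + x^4 R(x) with norm (R x) <= C and expand with ring. -/
def S_H3B : Prop := ∃ C : ℝ, 0 < C ∧ ∀ x : ℂ, x ≠ 0 → ‖x‖ ≤ 3 →
  ‖x ^ 3 * e2 x - 2‖ ≤ C * ‖x‖ ^ 3

/-- JOB D3 (120 lines, from H3A and H3B). With H(x) = x^3 e2(x): LD3(z) = z^(-3) sum_j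
(H((n+j) z) - H(j z)). Case alpha n <= 1 (NN = n): norm z <= 5/(4 n), all norm (m z) <= 3 for
m <= 2 n, so each difference is at most 2 C (2 n norm z)^3 and the sum at most 16 C n^4.
Case alpha n > 1 (NN = 1/alpha): |Im| <= Re/4, norm z >= alpha, each term at most
2 C e^(-j alpha/2), and sum_j e^(-j alpha/2) <= 1/(e^(alpha/2) - 1) <= 2/alpha. -/
def S_D3 : Prop := ∃ C : ℝ, 0 < C ∧ ∀ (n : ℕ) (α θ : ℝ), 2 ≤ n → 0 < α →
  |θ| ≤ (1 / 4) / NN n α → ‖LD3 n (zz α θ)‖ ≤ C * NN n α ^ 4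

/-- JOB H2 (150 lines, one real variable). hh x = (s/sinh s)^2 with s = x/2. It is antitone on
(0, oo), between 0 and 1, at most C e^(-x/2), 1 - hh x <= x^2, and hh x - hh y >= c (y^2 - x^2) for
0 < x <= y <= 3 (the derivative of (s/sinh s)^2 is 2 (s/sinh s)(sinh s - s cosh s)/(sinh s)^2
<= - c s on (0, 3/2]: s cosh s - sinh s >= s^3/3, s/sinh s >= c, sinh s <= 2 s for s <= 3/2 or any
such constant). -/
def S_H2 : Prop := (∀ x : ℝ, 0 < x → 0 < hh x ∧ hh x ≤ 1 ∧ 1 - hh x ≤ x ^ 2) ∧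
  (∀ x y : ℝ, 0 < x → x ≤ y → hh y ≤ hh x) ∧
  (∃ C : ℝ, 0 < C ∧ ∀ x : ℝ, 0 < x → hh x ≤ C * Real.exp (-(x / 2))) ∧
  (∃ c : ℝ, 0 < c ∧ ∀ x y : ℝ, 0 < x → x ≤ y → y ≤ 3 → c * (y ^ 2 - x ^ 2) ≤ hh x - hh y)

/-- JOB D2 (150 lines, from H2). sigma = alpha^(-2) sum_{j=2}^n (hh(j alpha) - hh((n+j) alpha)), all
terms >= 0. Case alpha n <= 1: (n+j) alpha <= 2, so each term is >= c ((n+j)^2 - j^2) alpha^2 >=
c n^2 alpha^2 and <= 1 - hh((n+j) alpha) <= 4 n^2 alpha^2. Case alpha n > 1: for 2 <= j <= 1/alpha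
(at least 1/alpha - 2 >= 1/(2 alpha) such j) the term is >= hh(j alpha) - hh(j alpha + 1) >= c;
upper bound: sum_j hh(j alpha) <= C sum_j e^(-j alpha/2) <= 2 C/alpha. -/
def S_D2 : Prop := ∃ c C : ℝ, 0 < c ∧ 0 < C ∧ ∀ (n : ℕ) (α : ℝ), 2 ≤ n → 0 < α → 4 ≤ NN n α →
  ∃ σ : ℝ, LD2 n (α : ℂ) = (σ : ℂ) ∧ c * NN n α ^ 3 ≤ σ ∧ σ ≤ C * NN n α ^ 3

/-- JOB MEAN1 (150 lines). For real alpha > 0, -LD n alpha is the real number
sum_j (j/(e^(j alpha) - 1) - (n+j)/(e^((n+j) alpha) - 1)), continuous in alpha; it tends to 0 for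
alpha -> oo and to sum_{j=2}^n n/2 = n (n-1)/2 for alpha -> 0+ (x/(e^x - 1) = 1 - x/2 + O(x^2)).
Intermediate value theorem for the value min(k, n (n-1)/2 - 1/2). -/
def S_MEAN1 : Prop := ∀ (n : ℕ) (k : ℝ), 2 ≤ n → 0 < k → k ≤ (n : ℝ) * ((n : ℝ) - 1) / 2 →
  ∃ α l : ℝ, 0 < α ∧ LD n (α : ℂ) = (l : ℂ) ∧ |l + k| ≤ 1

/-- JOB MEAN2 (60 lines). |l| <= 2 sum_{m >= 1} m/(e^(m alpha0) - 1), and
m/(e^(m a) - 1) <= m e^(-m a)/(1 - e^(-a)) is summable; every m occurs at most twice. -/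
def S_MEAN2 : Prop := ∀ α0 : ℝ, 0 < α0 → ∃ t : ℝ, ∀ (n : ℕ) (α l : ℝ), α0 ≤ α →
  LD n (α : ℂ) = (l : ℂ) → |l| ≤ t

/-- JOB QBT (80 lines): the q-binomial theorem, by induction on N with
QB (N+1) (r+1) = QB N (r+1) + w^(N-r) QB N r (r <= N), or by comparing the two sides under
x -> w x. Only the values r <= N occur. -/
def S_QBT : Prop := ∀ (K : Type) [Field K] (N : ℕ) (w x : K), (∀ i : ℕ, 1 ≤ i → w ^ i ≠ 1) →
  ∏ j ∈ range N, (1 + x * w ^ j) =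
    ∑ r ∈ range (N + 1), w ^ (r.choose 2) * QB N r w * x ^ r

/-- JOB CO (50 lines): Cauchy's bound for the coefficients of a polynomial: average
(s e^(i phi))^(-r) f over the (N+1)-st roots of unity (or integrate). -/
def S_CO : Prop := ∀ (N : ℕ) (f : ℕ → ℂ) (s B : ℝ), 0 < s →
  (∀ φ : ℝ, ‖∑ r ∈ range (N + 1), f r * ((s : ℂ) * Complex.exp ((φ : ℂ) * Complex.I)) ^ r‖ ≤ B) →
  ∀ r : ℕ, r ≤ N → ‖f r‖ * s ^ r ≤ B

/-- JOB DK (100 lines). 1 - cos(a - b) <= 2 (1 - cos a) + 2 (1 - cos b) (half of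
|e^(ia) - e^(ib)|^2 <= 2 |e^(ia) - 1|^2 + 2 |e^(ib) - 1|^2). Hence for 1 <= d <= L/2, adding over the
pairs (j, j+d): sum_{j<L} (1 - cos(phi - j th)) >= (L-d)/4 (1 - cos(d th)) >= (L/8)(1 - cos(d th)).
If |th| (L/2 rounded down) <= pi take d = floor(L/2) >= L/3: d |th| lies in [delta/3, pi]; else
take d = floor(pi/|th|) >= 1, then d |th| lies in (pi/2, pi]. So c = (1 - cos(delta/3))/8. -/
def S_DK : Prop := ∀ δ : ℝ, 0 < δ → δ ≤ 1 → ∃ c : ℝ, 0 < c ∧ ∀ (L : ℕ) (θ φ : ℝ), 2 ≤ L →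
  δ / L ≤ |θ| → |θ| ≤ Real.pi → c * L ≤ ∑ j ∈ range L, (1 - Real.cos (φ - j * θ))

/-- JOB PR (120 lines, from DK). rho_j = s q^j = e^(-alpha (j - n + 1/2)), s = e^(alpha (n - 1/2)),
q = e^(-alpha). norm (1 + rho e^(i g))^2 = (1+rho)^2 - 2 rho (1 - cos g) <= (1+rho)^2
exp(-2 rho (1 - cos g)/(1+rho)^2). So the quotient of the products is at most
exp(- sum_j rho_j/(1+rho_j)^2 (1 - cos(phi - j th))). Let M = floor(NN) >= 2 (so M <= n and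
alpha M <= 1). For n - M <= j < n + M: |log rho_j| <= 1, so rho_j/(1+rho_j)^2 >= 1/8. Apply DK
with L = 2 M >= NN. -/
def S_PR : Prop := ∀ δ : ℝ, 0 < δ → δ ≤ 1 → ∃ c : ℝ, 0 < c ∧ ∀ (n : ℕ) (α θ φ : ℝ), 2 ≤ n →
  0 < α → 2 ≤ NN n α → δ / NN n α ≤ |θ| → |θ| ≤ Real.pi →
  ∏ j ∈ range (2 * n), ‖1 + (Real.exp (α * ((n : ℝ) - 1 / 2)) : ℂ) *
      Complex.exp ((φ : ℂ) * Complex.I) * Complex.exp (-(zz α θ)) ^ j‖ ≤
    Real.exp (-(c * NN n α)) *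
      ∏ j ∈ range (2 * n), (1 + Real.exp (α * ((n : ℝ) - 1 / 2)) * Real.exp (-α) ^ j)

/-- JOB MO (200 lines, from QBT for the real field). q = e^(-alpha), s = e^(alpha (n - 1/2)),
f_r = q^(r choose 2) QB (2n) r q s^r > 0 for r <= 2n, sum_r f_r = Pi := prod_{j<2n} (1 + s q^j).
f_(r+1)/f_r = q^(r - n + 1/2) (1 - q^(2n-r))/(1 - q^(r+1)) is <= 1 for r >= n and >= 1 for r < n
(2n - r > r + 1 - ... : for r <= n-1, 2n - r >= n + 1 > r + 1 and the exponent r - n + 1/2 < 0), so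
f_n is the largest. Exponential moment: sum_r f_r 2^(r-n) = 2^(-n) prod_j (1 + 2 s q^j)
<= Pi exp(sum_{u>0} q^u / 2) over u = 1/2, 3/2, ..., n - 1/2, because pairing u with -u,
(1 + 2 rho)(2 + rho)/(2 (1+rho)^2) = 1 + rho/(2 (1+rho)^2) <= e^(rho/2); and
sum_{u>0} q^u <= min(n, 2/alpha) <= 2 NN. The same for sum_r f_r 2^(n-r). So
sum over |r - n| >= M of f_r <= 2 Pi e^(NN) 2^(-M) <= Pi/2 for M >= 4 NN (NN >= 2), hence
(2 M + 1) f_n >= Pi/2 with M = ceil(4 NN). -/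
def S_MO : Prop := ∃ c : ℝ, 0 < c ∧ ∀ (n : ℕ) (α : ℝ), 2 ≤ n → 0 < α → 2 ≤ NN n α →
  c / NN n α * ∏ j ∈ range (2 * n), (1 + Real.exp (α * ((n : ℝ) - 1 / 2)) * Real.exp (-α) ^ j) ≤
    Real.exp (-α) ^ (n.choose 2) * QB (2 * n) n (Real.exp (-α)) *
      Real.exp (α * ((n : ℝ) - 1 / 2)) ^ n

/-- JOB TA (200 lines, from QBT, CO, PR, MO). w = e^(-(alpha + i th)), q = e^(-alpha) = norm w.
GC n w = QB (2n) n w (1 - w)/(1 - w^(n+1)) and QB (2n) (n+1) w = QB (2n) n w (1 - w^n)/(1 - w^(n+1)),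
so GC n w = QB (2n) n w - w QB (2n) (n+1) w. QBT + CO + PR: for r = n, n+1:
norm (w^(r choose 2) QB (2n) r w) s^r <= e^(-c NN) Pi. With q^(-n) s^(-1) = e^(alpha/2) <= 2 this gives
norm (GC n w) <= 3 q^(-(n choose 2)) s^(-n) e^(-c NN) Pi <= 3 (NN/c') e^(-c NN) QB (2n) n q (MO). Finally
QB (2n) n q = GC n q (1 - q^(n+1))/(1 - q), and (1 - q^(n+1))/(1 - q) <= min(n+1, 1/(1-q)) <= 2 NN
(1 - e^(-a) >= a/2 for a <= 1). -/
def S_TA : Prop := ∀ δ : ℝ, 0 < δ → δ ≤ 1 → ∃ C c : ℝ, 0 < C ∧ 0 < c ∧ ∀ (n : ℕ) (α θ : ℝ),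
  2 ≤ n → 0 < α → 2 ≤ NN n α → δ / NN n α ≤ |θ| → |θ| ≤ Real.pi →
  ‖GZ n (zz α θ)‖ ≤ C * NN n α ^ 2 * Real.exp (-(c * NN n α)) * ‖GZ n (α : ℂ)‖

/-- psi -/
noncomputable def psi (n k : ℕ) (α θ : ℝ) : ℂ :=
  GZ n (zz α θ) / GZ n (α : ℂ) * Complex.exp ((k : ℂ) * (θ : ℂ) * Complex.I)

/-- JOB MAIN (120 lines, from AN, DER, PSI, D3, D2, MEAN1, MEAN2, TA). Constants: C3 from D3, c2, C2
from D2, delta = min(1/4, c2/(8 C3)), C', c' from TA for this delta, N0 from AN (c = c2, C = C2,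
K = C3), alpha0 = 1/max(N0, 4, 1), t from MEAN2 for alpha0, plus 2; n0 >= max(N0, 4, 2). For k >= t,
2 k <= n (n-1): MEAN1 gives alpha; alpha < alpha0 by MEAN2, so NN n alpha >= max(N0, 4). Continuity of
psi: DER. GZ n alpha is a positive real number (product of positive reals). -/
def S_MAIN : Prop := ∃ (t : ℕ) (n0 : ℕ), ∀ n k : ℕ, n0 ≤ n → t ≤ k → 2 * k ≤ n * (n - 1) →
  ∃ α g : ℝ, 0 < α ∧ 0 < g ∧ GZ n (α : ℂ) = (g : ℂ) ∧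
    0 < (∫ θ in (-Real.pi)..Real.pi, psi n k α θ * (1 - Complex.cos (θ : ℂ))).re ∧
    0 < (∫ θ in (-Real.pi)..Real.pi, psi n k α θ * Complex.exp ((θ : ℂ) * Complex.I)).re ∧
    0 < (∫ θ in (-Real.pi)..Real.pi, psi n k α θ * Complex.exp (-((θ : ℂ) * Complex.I))).re

/-- JOB FOUR (50 lines): Fourier coefficients of a polynomial on a circle. -/
def S_FOUR : Prop := ∀ (p : Polynomial ℤ) (k : ℕ) (q : ℝ), 0 < q →
  (∫ θ in (-Real.pi)..Real.pi, (Polynomial.aeval ((q : ℂ) * Complex.exp (-((θ : ℂ) * Complex.I))) p) *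
    Complex.exp ((k : ℂ) * (θ : ℂ) * Complex.I)) = 2 * Real.pi * (p.coeff k : ℂ) * (q : ℂ) ^ k

end V5helper19.QC
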