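import Pool.Agent.V5helper19.QC.Stm
import Pool.Agent.Results.MP_532027_co.LeastTNot75

set_option autoImplicit false
open Finset

namespace V5helper19.QC

open Pool.Agent.Results.MP_532027_co.LeastTNot75

/-- JOB POLY (60 lines): use qCat_mul or prod_mul_qCat of the starting file
(python3 ~/pt.py get Pool.Agent.Results.MP_532027_co.LeastTNot75); 1 - w^i <> 0 for norm w < 1. -/
def S_POLY : Prop := ∀ (n : ℕ) (w : ℂ), 1 ≤ n → ‖w‖ < 1 →
  Polynomial.aeval w (qCat n) = GC n w

/-- JOB END (120 lines). From S_MAIN, S_FOUR, S_POLY: for n >= n0, k with t + 1 <= k and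
2 k <= n (n-1): with q = e^(-alpha), a_l = (qCat n).coeff l, p_l = a_l q^l: GZ n (zz alpha th) =
aeval (q e^(-i th)) (qCat n); the three integrals of S_MAIN are 2 pi/g times
p_k - (p_(k-1) + p_(k+1))/2, p_(k+1), p_(k-1) (cos = half sum of the exponentials), so
a_(k-1) a_(k+1) <= a_k^2. For 2 k > n (n-1) use m_symm of the starting file. Good t is stated for
k : ℤ with t + 1 <= k <= n (n-1) - t - 1. -/
def S_END : Prop := S_MAIN → S_FOUR → S_POLY → ∃ t : ℤ, Good t

end V5helper19.QC
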